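import Pool.Agent.Y969.GP.Def2
import Pool.Agent.TH612.CF.Loc

set_option autoImplicit false

/-!
Project GP (helper969), job GP-FB: the arithmetic factor with one deep variable. The proofs are those
of `lh_hasProd`, `FH_le`, `FH_diff`, `FH_cont` in `Pool/Agent/TH612/CF/Loc.lean` with another majorant.
-/

namespace Pool.Agent.Y319.GP

open Complex Filter Topology MeasureTheory Set
open Pool.Agent.TH612.CF (lh FH Tb lh_diff lh_cont)
open Pool.Agent.Y969.GP

noncomputable section

lemma Tj.tb {k : ℕ} {j : Fin k} {σ η : ℝ} (h : η ≤ σ) {a b : Fin k → ℂ} (hT : Tj j σ η a b) :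
    Tb σ a b := by
  intro i
  by_cases hi : i = j
  · subst hi
    exact ⟨hT.1, hT.2.1⟩
  · exact ⟨(hT.2.2 i hi).1.trans h, (hT.2.2 i hi).2.trans h⟩

lemma primes_sum {κ : ℝ} (hκ : 0 < κ) (C : ℝ) :
    Summable (fun p : Nat.Primes => C * (p : ℝ) ^ (-(1 + κ))) := by
  refine Summable.mul_left C ?_
  exact (Nat.Primes.summable_rpow).2 (by linarith)

/-- bound from a majorant of the local factors -/
lemma fh_le {k : ℕ} {a b : Fin k → ℂ} {C κ : ℝ} (hC : 0 < C) (hκ : 0 < κ)
    (h : ∀ p : ℕ, p.Prime → ‖lh a b p - 1‖ ≤ C * (p : ℝ) ^ (-(1 + κ))) :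
    ‖FH a b‖ ≤ Real.exp (∑' p : Nat.Primes, C * (p : ℝ) ^ (-(1 + κ))) := by
  have h0 : HasProd (fun p : Nat.Primes => lh a b p) (FH a b) := by
    have h1 : Summable (fun p : Nat.Primes => ‖lh a b p - 1‖) :=
      Summable.of_nonneg_of_le (fun _ => norm_nonneg _)
        (fun p => h p p.2) (primes_sum hκ C)
    have h2 := multipliable_one_add_of_summable h1
    have h3 : (fun p : Nat.Primes => lh a b p) = fun p : Nat.Primes => 1 + (lh a b p - 1) := by
      funext p; ring
    unfold FH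
    rw [h3]
    exact h2.hasProd
  have h1 := h0.norm
  refine le_of_tendsto h1 (Eventually.of_forall fun s => ?_)
  have h2 : ∏ p ∈ s, ‖lh a b p‖ ≤ Real.exp (∑ p ∈ s, C * (p : ℝ) ^ (-(1 + κ))) := by
    rw [Real.exp_sum]
    refine Finset.prod_le_prod (fun _ _ => norm_nonneg _) fun p _ => ?_
    have h3 := h p p.2
    have h4 : ‖lh a b p‖ ≤ ‖lh a b p - 1‖ + 1 := by
      have := norm_add_le (lh a b p - 1) 1
      rw [sub_add_cancel, norm_one] at this
      exact this
    have h5 := Real.add_one_le_exp (C * (p : ℝ) ^ (-(1 + κ)))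
    linarith
  refine h2.trans (Real.exp_le_exp.2 ?_)
  refine (primes_sum hκ C).sum_le_tsum _ fun p _ => ?_
  positivity

theorem t_FB (h : S_FD) : S_FB := by
  intro k σ η h0 h1 h2 h3
  obtain ⟨C, κ, hC, hκ, H⟩ := h k σ η h0 h1 h2 h3
  refine ⟨Real.exp (∑' p : Nat.Primes, C * (p : ℝ) ^ (-(1 + κ))), Real.exp_pos _, ?_⟩
  intro j a b hT
  exact fh_le hC hκ (H j a b hT)

theorem t_FHD (h : S_FD) : S_FHD := by
  intro k σ η h0 h1 h2 h3 j U a b hU ha hb hT
  obtain ⟨C, κ, hC, hκ, H⟩ := h k σ η h0 h1 h2 h3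
  have hc : σ < 1 / 2 := by linarith
  have hTb : ∀ s ∈ U, Tb σ (a s) (b s) := fun s hs => Tj.tb h1 (hT s hs)
  have h1 := Summable.hasProdLocallyUniformlyOn_one_add (f := fun (p : Nat.Primes) (s : ℂ) =>
    lh (a s) (b s) p - 1) hU (primes_sum hκ C)
    (Eventually.of_forall fun p s hs => H j _ _ (hT s hs) p p.2)
    (fun p => ((lh_diff hU hc ha hb hTb p.2).sub_const 1).continuousOn)
  have h2 := (hasProdLocallyUniformlyOn_iff_tendstoLocallyUniformlyOn.1 h1).differentiableOn
    (Eventually.of_forall fun s => ?_) hU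
  · refine h2.congr fun s hs => ?_
    unfold FH
    refine tprod_congr fun p => ?_
    ring
  · refine DifferentiableOn.fun_finsetProd fun p _ => ?_
    exact ((lh_diff hU hc ha hb hTb p.2).sub_const 1).const_add 1

theorem t_FHC (h : S_FD) : S_FHC := by
  intro k σ η h0 h1 h2 h3 j X _ _ U a b hU ha hb hT
  obtain ⟨C, κ, hC, hκ, H⟩ := h k σ η h0 h1 h2 h3
  have hc : σ < 1 / 2 := by linarith
  have hTb : ∀ s ∈ U, Tb σ (a s) (b s) := fun s hs => Tj.tb h1 (hT s hs)
  have h1 := Summable.hasProdLocallyUniformlyOn_one_add (f := fun (p : Nat.Primes) (s : X) =>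
    lh (a s) (b s) p - 1) hU (primes_sum hκ C)
    (Eventually.of_forall fun p s hs => H j _ _ (hT s hs) p p.2)
    (fun p => ((lh_cont hc ha hb hTb p.2).sub continuousOn_const))
  have h3 : ∀ s : Finset Nat.Primes,
      ContinuousOn (fun x => ∏ i ∈ s, (1 + (lh (a x) (b x) i - 1))) U := fun s =>
    continuousOn_finsetProd _ fun p _ =>
      continuousOn_const.add ((lh_cont hc ha hb hTb p.2).sub continuousOn_const)
  have h2 := (hasProdLocallyUniformlyOn_iff_tendstoLocallyUniformlyOn.1 h1).continuousOn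
    (Eventually.of_forall h3).frequently
  refine h2.congr fun s hs => ?_
  unfold FH
  refine tprod_congr fun p => ?_
  ring

end

end Pool.Agent.Y319.GP
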